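import Mathlib

set_option autoImplicit false

namespace Pool.Agent.H.MP_58a9d8_ag

open Finset Module

/-- the congruence generated by the bend relations of all elements of `trop I` -/
noncomputable def Bend {K S M : Type} [Field K] [Semifield S] [AddCommMonoid M] (v : K → S)
    (I : Ideal (AddMonoidAlgebra K M)) : RingCon (AddMonoidAlgebra S M) :=
  ringConGen fun a b => (∃ f ∈ I, ∀ u, a.coeff u = v (f.coeff u)) ∧
    ∃ u ∈ a.coeff.support, b = a.erase u

section Idem

variable {A : Type} [IdemCommSemiring A]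

theorem pow_le (x y z : A) (n : ℕ) : ∀ w : A, (∀ i j, i + j = n → w * (x ^ i * y ^ j) ≤ z) →
    w * (x + y) ^ n ≤ z := by
  induction n with
  | zero => intro w h; simpa using h 0 0 rfl
  | succ n ih =>
    intro w h
    have : w * (x + y) ^ (n + 1) = (w * x) * (x + y) ^ n + (w * y) * (x + y) ^ n := by ring
    rw [this, add_le_iff]
    refine ⟨ih _ fun i j e => ?_, ih _ fun i j e => ?_⟩
    · convert h (i + 1) j (by omega) using 1
      ring
    · convert h i (j + 1) (by omega) using 1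
      ring

theorem le_sum {ι : Type} (s : Finset ι) (a : ι → A) {i : ι} (h : i ∈ s) : a i ≤ ∑ j ∈ s, a j := by
  classical
  rw [← add_sum_erase s a h]
  exact (add_le_iff.1 le_rfl).1

theorem sum_le {ι : Type} (s : Finset ι) (a : ι → A) (z : A) (h : ∀ i ∈ s, a i ≤ z) :
    ∑ j ∈ s, a j ≤ z := by
  classical
  induction s using Finset.induction_on with
  | empty => simp
  | insert i s hi ih =>
    rw [sum_insert hi, add_le_iff]
    exact ⟨h i (by simp), ih fun j hj => h j (by simp [hj])⟩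

theorem pw_le {x y : A} (h : x ≤ y) (n : ℕ) : x ^ n ≤ y ^ n := by
  induction n with
  | zero => simp
  | succ n ih => rw [pow_succ, pow_succ]; exact mul_le_mul' ih h

theorem frob {ι : Type} (s : Finset ι) (a : ι → A) (k : ℕ) :
    ∃ N, (∑ i ∈ s, a i) ^ (N + (k + 1)) ≤ (∑ i ∈ s, a i) ^ N * ∑ i ∈ s, a i ^ (k + 1) := by
  classical
  induction s using Finset.induction_on with
  | empty => exact ⟨0, by simp⟩
  | insert i s hi ih =>
    obtain ⟨N, hN⟩ := ih
    refine ⟨N + k, ?_⟩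
    rw [sum_insert hi, sum_insert hi, ← one_mul (_ ^ (N + k + (k + 1)))]
    set y := ∑ i ∈ s, a i
    have l1 : a i ≤ a i + y := (add_le_iff.1 le_rfl).1
    have l2 : y ≤ a i + y := (add_le_iff.1 le_rfl).2
    have l3 : ∀ p q, a i ^ p * y ^ q ≤ (a i + y) ^ (p + q) := fun p q => by
      rw [pow_add]
      exact mul_le_mul' (pw_le l1 p) (pw_le l2 q)
    refine pow_le _ _ _ _ _ fun p q e => ?_
    rw [one_mul]
    by_cases h : k + 1 ≤ p
    · obtain ⟨r, rfl⟩ := Nat.exists_eq_add_of_le h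
      have e' : N + k = r + q := by omega
      calc a i ^ (k + 1 + r) * y ^ q = (a i ^ r * y ^ q) * a i ^ (k + 1) := by ring
        _ ≤ _ := by
          rw [e']
          exact mul_le_mul' (l3 r q) (add_le_iff.1 le_rfl).1
    · obtain ⟨r, rfl⟩ : ∃ r, q = r + (N + (k + 1)) := ⟨q - (N + (k + 1)), by omega⟩
      have e' : N + k = p + (r + N) := by omega
      calc a i ^ p * y ^ (r + (N + (k + 1))) = a i ^ p * y ^ r * y ^ (N + (k + 1)) := by ring
        _ ≤ a i ^ p * y ^ r * (y ^ N * ∑ i ∈ s, a i ^ (k + 1)) := mul_le_mul' le_rfl hN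
        _ = (a i ^ p * y ^ (r + N)) * ∑ i ∈ s, a i ^ (k + 1) := by ring
        _ ≤ _ := by
          rw [e']
          exact mul_le_mul' (l3 p _) (add_le_iff.1 le_rfl).2

theorem frob_eq {ι : Type} (s : Finset ι) (a : ι → A) (k : ℕ)
    (h : IsLeftRegular (∑ i ∈ s, a i)) :
    (∑ i ∈ s, a i) ^ (k + 1) = ∑ i ∈ s, a i ^ (k + 1) := by
  obtain ⟨N, hN⟩ := frob s a k
  apply h.pow N
  refine le_antisymm (by simpa only [← pow_add] using hN) (mul_le_mul' le_rfl ?_)
  exact sum_le _ _ _ fun i hi => pw_le (le_sum s a hi) _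

end Idem

theorem stab {K D : Type} [Field K] [CommRing D] [IsDomain D] [Algebra K D]
    (V : Submodule K D) (n : ℕ) (a : D) (ha : a ∈ V) (h0 : a ≠ 0)
    (h : ∀ k, FiniteDimensional K ↥(V ^ (k + 1)) ∧ finrank K ↥(V ^ (k + 1)) ≤ n) :
    ∃ k, V * V ^ (k + 1) ≤ Submodule.span K {a} * V ^ (k + 1) := by
  have l : ∀ k, (V ^ (k + 1)).map (LinearMap.mulLeft K a) ≤ V ^ (k + 1 + 1) := by
    rintro k _ ⟨y, hy, rfl⟩
    rw [pow_succ']
    exact Submodule.mul_mem_mul ha hy
  have e : ∀ k, finrank K ((V ^ (k + 1)).map (LinearMap.mulLeft K a)) =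
      finrank K ↥(V ^ (k + 1)) := fun k =>
    (Submodule.equivMapOfInjective _ (mul_right_injective₀ h0) _).finrank_eq.symm
  have : ∃ k, finrank K ↥(V ^ (k + 1 + 1)) ≤ finrank K ↥(V ^ (k + 1)) := by
    by_contra hc
    push Not at hc
    have : ∀ k, k ≤ finrank K ↥(V ^ (k + 1)) := by
      intro k
      induction k with
      | zero => omega
      | succ k ih => have := hc k; omega
    have a := this (n + 1)
    have b := (h (n + 1)).2
    omega
  obtain ⟨k, hk⟩ := this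
  refine ⟨k, ?_⟩
  haveI := (h (k + 1)).1
  rw [← pow_succ', ← Submodule.eq_of_le_of_finrank_le (l k) (by rw [e]; exact hk)]
  rintro _ ⟨y, hy, rfl⟩
  exact Submodule.mul_mem_mul (Submodule.mem_span_singleton_self a) hy

theorem core {K S M D A : Type} [Field K] [Semifield S] [AddCommMonoid M] [CommRing D]
    [IsDomain D] [Algebra K D] [IdemCommSemiring A] (ι : S →+* A) (X : M → A) (χ : M → D)
    (ρ : A →+* Submodule K D) (hX : ∀ u w, X (u + w) = X u * X w) (h0 : ∀ u, χ u ≠ 0)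
    (h1 : ∀ u, ρ (X u) = Submodule.span K {χ u}) (h2 : ∀ e, e ≠ 0 → ρ (ι e) = 1)
    (h3 : ∀ u (T : Finset M), χ u ∈ Submodule.span K (χ '' T) →
      ∃ e, X u ≤ ι e * ∑ w ∈ T, X w)
    (h4 : ∀ y : A, ∃ (T : Finset M) (a : M → S), (∀ u ∈ T, a u ≠ 0) ∧
      y = ∑ u ∈ T, ι (a u) * X u)
    (T : Finset M) (a : M → S) (ha : ∀ u ∈ T, a u ≠ 0)
    (hx : IsLeftRegular (∑ u ∈ T, ι (a u) * X u)) (u1 u2 : M) (m1 : u1 ∈ T) (m2 : u2 ∈ T) :
    χ u2 ∈ Submodule.span K {χ u1} := by
  classical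
  have mono : ∀ x y : A, x ≤ y → ρ x ≤ ρ y := fun x y h => by
    rw [← add_eq_right_iff_le] at h ⊢
    rw [← map_add, h]
  have mem : ∀ (T : Finset M) (a : M → S), (∀ u ∈ T, a u ≠ 0) → ∀ u ∈ T,
      χ u ∈ ρ (∑ u ∈ T, ι (a u) * X u) := fun T a ha u hu =>
    mono _ _ (le_sum T (fun u => ι (a u) * X u) hu) (by
      rw [map_mul, h2 _ (ha u hu), one_mul, h1]
      exact Submodule.mem_span_singleton_self _)
  set x := ∑ u ∈ T, ι (a u) * X u with hxd
  obtain ⟨k, hk⟩ := stab (ρ x) T.card (χ u1) (mem T a ha u1 m1) (h0 _) (by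
    intro k
    have : ρ x ^ (k + 1) ≤ Submodule.span K (T.image fun u => χ u ^ (k + 1) : Finset D) := by
      rw [← map_pow, hxd, frob_eq _ _ _ hx, map_sum]
      refine sum_le _ _ _ fun u hu => ?_
      rw [map_pow, map_mul, h2 _ (ha u hu), one_mul, h1, Submodule.span_pow,
        Set.singleton_pow]
      exact Submodule.span_mono (by simpa using ⟨u, hu, rfl⟩)
    exact ⟨Submodule.finiteDimensional_of_le this, (Submodule.finrank_mono this).trans
      ((finrank_span_finset_le_card _).trans card_image_le)⟩)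
  obtain ⟨U, b, hb, hU⟩ := h4 (x ^ (k + 1))
  have sm : ∀ (U : Finset M) (c : M → S) (u : M), u ∈ U → ι (c u) ≤ ι (∑ w ∈ U, c w) :=
    fun U c u hu => by
      rw [map_sum]
      exact le_sum U (fun w => ι (c w)) hu
  have s1 : ∀ w ∈ U, X w ≤ ι (∑ w ∈ U, (b w)⁻¹) * x ^ (k + 1) := fun w hw => by
    calc X w = ι (b w)⁻¹ * (ι (b w) * X w) := by
          rw [← mul_assoc, ← map_mul, inv_mul_cancel₀ (hb w hw), map_one, one_mul]
      _ ≤ _ := mul_le_mul' (sm U (fun w => (b w)⁻¹) w hw)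
          (hU ▸ le_sum U (fun u => ι (b u) * X u) hw)
  have s2 : ∀ w, ∃ e, w ∈ U → X (u2 + w) ≤ ι e * (X u1 * x ^ (k + 1)) := by
    intro w
    by_cases hw : w ∈ U
    swap
    · exact ⟨0, fun h => (hw h).elim⟩
    have c1 : ρ (X (u2 + w)) ≤ ρ x * ρ x ^ (k + 1) := by
      rw [hX, map_mul, h1, h1, ← map_pow, hU]
      exact mul_le_mul' ((Submodule.span_singleton_le_iff_mem _ _).2 (mem T a ha u2 m2))
        ((Submodule.span_singleton_le_iff_mem _ _).2 (mem U b hb w hw))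
    have c2 : Submodule.span K {χ u1} * ρ x ^ (k + 1) ≤
        Submodule.span K (χ '' (U.image fun w => u1 + w : Finset M)) := by
      rw [← h1, ← map_pow, ← map_mul, hU, mul_sum, map_sum]
      refine sum_le _ _ _ fun u hu => ?_
      rw [mul_left_comm, ← hX, map_mul, h2 _ (hb u hu), one_mul, h1]
      exact Submodule.span_mono (by simpa using ⟨u, hu, rfl⟩)
    obtain ⟨e, he⟩ := h3 (u2 + w) _ (((c1.trans hk).trans c2) (by
      rw [h1]
      exact Submodule.mem_span_singleton_self _))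
    refine ⟨e * ∑ w ∈ U, (b w)⁻¹, fun _ => he.trans ?_⟩
    rw [map_mul, mul_assoc]
    refine mul_le_mul' le_rfl (sum_le _ _ _ fun u hu => ?_)
    obtain ⟨z, hz, rfl⟩ := mem_image.1 hu
    rw [hX, mul_left_comm]
    exact mul_le_mul' le_rfl (s1 z hz)
  choose e he using s2
  have s3 : x ^ (k + 1) * X u2 ≤ x ^ (k + 1) * (ι (∑ w ∈ U, b w * e w) * X u1) := by
    conv_lhs => rw [hU, sum_mul]
    refine sum_le _ _ _ fun w hw => ?_
    calc ι (b w) * X w * X u2 = ι (b w) * X (u2 + w) := by rw [hX]; ring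
      _ ≤ ι (b w) * (ι (e w) * (X u1 * x ^ (k + 1))) := mul_le_mul' le_rfl (he w hw)
      _ = x ^ (k + 1) * (ι (b w * e w) * X u1) := by rw [map_mul]; ring
      _ ≤ _ := mul_le_mul' le_rfl (mul_le_mul' (sm U (fun w => b w * e w) w hw) le_rfl)
  rw [← add_eq_right_iff_le, ← mul_add] at s3
  have s4 := mono _ _ (add_eq_right_iff_le.1 (hx.pow (k + 1) s3))
  rw [h1, Submodule.span_singleton_le_iff_mem, map_mul, h1] at s4
  by_cases hz : ∑ w ∈ U, b w * e w = 0
  · rw [hz, map_zero, map_zero, zero_mul] at s4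
    exact (h0 _ s4).elim
  · rwa [h2 _ hz, one_mul] at s4

end Pool.Agent.H.MP_58a9d8_ag
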