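import Pool.Agent.H.MP_58a9d8_ag.A

set_option autoImplicit false

namespace Pool.Agent.H.MP_58a9d8_ag

open AddMonoidAlgebra Finset

theorem main {K S M D : Type} [Field K] [Semifield S] [AddCommMonoid M] (hS : (1 : S) + 1 = 1)
    (v : K →*₀ S) (I : Ideal (AddMonoidAlgebra K M)) [CommRing D] [IsDomain D] [Algebra K D]
    (φ : AddMonoidAlgebra K M →ₐ[K] D) (hφ : ∀ f, φ f = 0 ↔ f ∈ I)
    (hI : ∀ f ∈ I, f.coeff.support.card ≠ 1 ∧ f.coeff.support.card ≠ 2)
    (x : (Bend v I).Quotient) (hx : ∀ g h, x * g = x * h → g = h) :
    ∃ (u : M) (a : S), a ≠ 0 ∧ x = (Bend v I).mk' (single u a) := by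
  classical
  have idem : ∀ a : S, a + a = a := fun a => by rw [← mul_one a, ← mul_add, hS]
  have zs : ∀ a b : S, a + b = 0 → a = 0 := fun a b h => by
    rw [← add_zero a, ← h, ← add_assoc, idem]
  let χ : M → D := fun u => φ (single u 1)
  have hχ : ∀ u w, χ (u + w) = χ u * χ w := fun u w => by
    simp only [χ, ← map_mul, single_mul_single, mul_one]
  have h0 : ∀ u, χ u ≠ 0 := fun u h => (hI _ ((hφ _).1 h)).1 (by
    simp [Finsupp.support_single_ne_zero])
  let f : S →+* Submodule K D :=
    { toFun := fun a => if a = 0 then 0 else 1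
      map_zero' := by simp
      map_one' := by simp
      map_mul' := fun a b => by by_cases ha : a = 0 <;> by_cases hb : b = 0 <;> simp [ha, hb]
      map_add' := fun a b => by
        by_cases ha : a = 0
        · simp [ha]
        have : a + b ≠ 0 := fun h => ha (zs a b h)
        by_cases hb : b = 0 <;> simp [ha, hb, this] }
  let g : Multiplicative M →* Submodule K D :=
    { toFun := fun u => Submodule.span K {χ u.toAdd}
      map_one' := by
        rw [Submodule.one_eq_span, ← map_one φ]
        rfl
      map_mul' := fun u w => by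
        rw [Submodule.span_mul_span, Set.singleton_mul_singleton, toAdd_mul, hχ] }
  let r : AddMonoidAlgebra S M →+* Submodule K D :=
    liftNCRingHom f g fun _ _ => mul_comm _ _
  have hr : ∀ u a, a ≠ 0 → r (single u a) = Submodule.span K {χ u} := fun u a ha => by
    simp [r, f, g, ha]
  have sm : ∀ {R : Type} [Semiring R] (p : AddMonoidAlgebra R M),
      p = ∑ u ∈ p.coeff.support, single u (p.coeff u) := fun p => (sum_coeff_single p).symm
  have mk : ∀ u (c : K), φ (single u c) = c • χ u := fun u c => by
    rw [← map_smul, smul_single, smul_eq_mul, mul_one]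
  have hk : Bend v I ≤ RingCon.ker r := by
    refine RingCon.ringConGen_le.2 ?_
    rintro a _ ⟨⟨p, hp, e⟩, u, hu, rfl⟩
    rw [RingCon.ker_apply]
    have hu' := Finsupp.mem_support_iff.1 hu
    conv_lhs => rw [← single_add_erase u a, map_add, hr _ _ hu']
    rw [add_eq_right_iff_le, Submodule.span_singleton_le_iff_mem]
    have c : p.coeff u ≠ 0 := fun h => hu' (by rw [e, h, map_zero])
    have z := (hφ _).2 hp
    rw [← single_add_erase u p, map_add, mk, add_eq_zero_iff_eq_neg] at z
    rw [← Submodule.smul_mem_iff _ c, z, neg_mem_iff, sm (p.erase u), map_sum]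
    refine Submodule.sum_mem _ fun w hw => ?_
    have hw' : w ∈ (a.erase u).coeff.support := by
      simp only [coeff_erase, Finsupp.support_erase, mem_erase, Finsupp.mem_support_iff, e,
        map_ne_zero] at hw ⊢
      exact hw
    rw [mk, sm (a.erase u), map_sum]
    refine Submodule.smul_mem _ _ (le_sum _ (fun w => r (single w ((a.erase u).coeff w))) hw' ?_)
    rw [hr _ _ (Finsupp.mem_support_iff.1 hw')]
    exact Submodule.mem_span_singleton_self _
  let π := (Bend v I).mk'
  let ι : S →+* (Bend v I).Quotient := π.comp singleZeroRingHom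
  let X : M → (Bend v I).Quotient := fun u => π (single u 1)
  have hπ : ∀ u a, π (single u a) = ι a * X u := fun u a => by
    change _ = π (single 0 a) * π (single u 1)
    rw [← map_mul, single_mul_single, zero_add, mul_one]
  letI : IdemCommSemiring (Bend v I).Quotient :=
    { IdemSemiring.ofSemiring fun a : (Bend v I).Quotient => by
        rw [← mul_one a, ← mul_add, ← map_one ι, ← map_add, hS] with
      mul_comm := mul_comm }
  have h4 : ∀ p : AddMonoidAlgebra S M, π p = ∑ u ∈ p.coeff.support, ι (p.coeff u) * X u :=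
    fun p => by
      conv_lhs => rw [sm p, map_sum]
      simp only [hπ]
  obtain ⟨p, rfl⟩ := (Bend v I).mk'_surjective x
  have key := core ι X χ ((Bend v I).lift r hk)
    (fun u w => by simp only [X, ← map_mul, single_mul_single, mul_one]) h0
    (fun u => hr u 1 one_ne_zero)
    (fun e he => (hr 0 e he).trans (by
      rw [Submodule.one_eq_span, ← map_one φ]
      rfl))
    (by
      intro u T h
      by_cases hu : u ∈ T
      · exact ⟨1, by rw [map_one, one_mul]; exact le_sum T X hu⟩
      obtain ⟨c, hc⟩ := (Submodule.mem_span_image_finset_iff_exists_fun' K).1 h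
      let q : AddMonoidAlgebra K M := single u 1 - ∑ w ∈ T, single w (c w)
      have hq : q ∈ I := by
        rw [← hφ, map_sub, map_sum]
        simp only [mk, one_smul, hc, sub_self]
      have qc : ∀ w, w ∉ T → q.coeff w = if u = w then 1 else 0 := by
        intro w hw
        simp only [q, coeff_sub, coeff_sum, coeff_single, Finsupp.coe_sub, Pi.sub_apply,
          Finsupp.finset_sum_apply, Finsupp.single_apply]
        rw [sum_eq_zero fun i hi => if_neg (by rintro rfl; exact hw hi), sub_zero]
      let a : AddMonoidAlgebra S M := .ofCoeff (q.coeff.mapRange v (map_zero v))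
      have au : a.coeff u = 1 := by simp [a, qc u hu]
      have b : π a = π (a.erase u) := (RingCon.eq _).2 (RingCon.le_ringConGen _ _
        ⟨⟨q, hq, fun _ => rfl⟩, u, by simp [au], rfl⟩)
      conv_lhs at b => rw [← single_add_erase u a, au, map_add]
      refine ⟨∑ w ∈ T, a.coeff w, (add_eq_right_iff_le.1 b).trans ?_⟩
      rw [h4]
      refine sum_le _ _ _ fun w hw => ?_
      have hw' : w ≠ u ∧ q.coeff w ≠ 0 := by simpa [a] using hw
      have hT : w ∈ T := by
        by_contra hn
        exact hw'.2 (by rw [qc w hn, if_neg hw'.1.symm])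
      rw [coeff_erase, Finsupp.erase_ne hw'.1, map_sum]
      exact mul_le_mul' (le_sum T (fun w => ι (a.coeff w)) hT) (le_sum T X hT))
    (fun y => by
      obtain ⟨p, rfl⟩ := (Bend v I).mk'_surjective y
      exact ⟨_, _, fun u hu => Finsupp.mem_support_iff.1 hu, h4 p⟩)
    p.coeff.support p.coeff (fun u hu => Finsupp.mem_support_iff.1 hu) (h4 p ▸ hx)
  have one : ∀ u ∈ p.coeff.support, ∀ w ∈ p.coeff.support, u = w := by
    intro u hu w hw
    by_contra hne
    obtain ⟨c, hc⟩ := Submodule.mem_span_singleton.1 (key u w hu hw)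
    have c0 : c ≠ 0 := by
      rintro rfl
      exact h0 w (by rw [← hc, zero_smul])
    have : single u c + single w (-1) ∈ I := by
      rw [← hφ, map_add, mk, mk, hc]
      simp
    refine (hI _ this).2 ?_
    rw [coeff_add, coeff_single, coeff_single, Finsupp.support_add_eq,
      Finsupp.support_single_ne_zero _ c0, Finsupp.support_single_ne_zero _ (by simp)]
    · simp [hne]
    · rw [Finsupp.support_single_ne_zero _ c0, Finsupp.support_single_ne_zero _ (by simp)]
      simp [hne]
  rcases p.coeff.support.eq_empty_or_nonempty with h | ⟨u, hu⟩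
  · have z : π p = 0 := by rw [h4, h, sum_empty]
    have := congrArg ((Bend v I).lift r hk) (hx 1 0 (by rw [mul_one, mul_zero]; exact z))
    rw [map_one, map_zero] at this
    exact absurd this one_ne_zero
  · refine ⟨u, p.coeff u, Finsupp.mem_support_iff.1 hu, ?_⟩
    conv_lhs => rw [sm p, sum_eq_single_of_mem u hu fun w hw h => (h (one w hw u hu)).elim]

end Pool.Agent.H.MP_58a9d8_ag
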